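import Pool.Agent.L0h54.HV.Stm
import Pool.Agent.Cov.PNT

/-!
# Project HV: the sum of the squares of the von Mangoldt function (module LOW; helper56)
-/

set_option autoImplicit false
set_option linter.all false

namespace Pool.Agent.L0h56.HV

open Finset Filter
open ArithmeticFunction (vonMangoldt)

theorem low_aux (x : ℕ) (L y : ℝ) (hy0 : 0 ≤ y)
    (hy : ∀ p : ℕ, p.Prime → y < p → L ≤ Real.log p) (hyx : y ≤ x) :
    L * Chebyshev.theta x - L * Chebyshev.theta y ≤ ∑ n ∈ Icc 1 x, vonMangoldt n ^ 2 := by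
  have hf : ⌊y⌋₊ ≤ x := by
    have := Nat.floor_le_floor hyx
    rwa [Nat.floor_natCast] at this
  have hsub : (Ioc 0 ⌊y⌋₊).filter Nat.Prime ⊆ (Ioc 0 x).filter Nat.Prime := by
    intro p hp
    rw [mem_filter, mem_Ioc] at hp ⊢
    exact ⟨⟨hp.1.1, hp.1.2.trans hf⟩, hp.2⟩
  unfold Chebyshev.theta
  rw [Nat.floor_natCast, ← Finset.sum_sdiff hsub, mul_add, add_sub_cancel_right, Finset.mul_sum]
  calc ∑ p ∈ (Ioc 0 x).filter Nat.Prime \ (Ioc 0 ⌊y⌋₊).filter Nat.Prime, L * Real.log p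
      ≤ ∑ p ∈ (Ioc 0 x).filter Nat.Prime \ (Ioc 0 ⌊y⌋₊).filter Nat.Prime, vonMangoldt p ^ 2 := by
        refine Finset.sum_le_sum fun p hp => ?_
        rw [Finset.mem_sdiff, mem_filter, mem_filter, mem_Ioc, mem_Ioc] at hp
        obtain ⟨⟨⟨h1, h2⟩, h3⟩, h4⟩ := hp
        have h5 : y < p := by
          by_contra hcon
          rw [not_lt] at hcon
          exact h4 ⟨⟨h1, Nat.le_floor hcon⟩, h3⟩
        rw [ArithmeticFunction.vonMangoldt_apply_prime h3, sq]
        exact mul_le_mul_of_nonneg_right (hy p h3 h5) (Real.log_natCast_nonneg p)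
    _ ≤ ∑ n ∈ Icc 1 x, vonMangoldt n ^ 2 := by
        refine Finset.sum_le_sum_of_subset_of_nonneg ?_ fun n _ _ => sq_nonneg _
        intro p hp
        rw [Finset.mem_sdiff, mem_filter, mem_Ioc] at hp
        rw [mem_Icc]
        exact ⟨hp.1.1.1, hp.1.1.2⟩

theorem t_LOW : Pool.Agent.L0h54.HV.LOW := by
  intro δ hδ
  obtain ⟨d, hd, hd0, hd1, hdδ⟩ : ∃ d : ℝ, d = min δ 1 ∧ 0 < d ∧ d ≤ 1 ∧ d ≤ δ :=
    ⟨_, rfl, lt_min hδ one_pos, min_le_right _ _, min_le_left _ _⟩
  have h1 : ∀ᶠ x : ℝ in atTop, 1 - d / 4 < Chebyshev.theta x / x :=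
    Pool.Agent.Cov.PNT.theta_div_tendsto.eventually (lt_mem_nhds (by linarith))
  have h2 : ∀ᶠ x : ℝ in atTop, x ^ (-(d / 4)) < d / 8 :=
    (tendsto_rpow_neg_atTop (by positivity : 0 < d / 4)).eventually (gt_mem_nhds (by positivity))
  have h3 := ((h1.and h2).and (eventually_ge_atTop (2 : ℝ)))
  have h4 := tendsto_natCast_atTop_atTop (R := ℝ) |>.eventually h3
  obtain ⟨x0, hx0⟩ := eventually_atTop.mp h4
  refine ⟨x0, fun x hx => ?_⟩
  obtain ⟨⟨e1, e2⟩, e3⟩ := hx0 x hx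
  have hx1 : (0 : ℝ) < x := by linarith
  rw [lt_div_iff₀ hx1] at e1
  obtain ⟨y, hy⟩ : ∃ y : ℝ, y = (x : ℝ) ^ (1 - d / 4) := ⟨_, rfl⟩
  have hy0 : 0 < y := by
    rw [hy]
    positivity
  have hyx : y = x * (x : ℝ) ^ (-(d / 4)) := by
    rw [hy, sub_eq_add_neg, Real.rpow_add hx1, Real.rpow_one]
  have hy8 : y ≤ d / 8 * x := by
    rw [hyx]
    nlinarith
  have hyx' : y ≤ x := by nlinarith
  have hlogx : 0 ≤ Real.log x := Real.log_nonneg (by linarith)
  have hlogy : Real.log y = (1 - d / 4) * Real.log x := by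
    rw [hy, Real.log_rpow hx1]
  have h5 := low_aux x ((1 - d / 4) * Real.log x) y hy0.le (fun p hp hyp => by
    rw [← hlogy]
    exact Real.log_le_log hy0 hyp.le) hyx'
  have h6 : Chebyshev.theta y ≤ d / 4 * x := by
    have h7 := Chebyshev.theta_le_log4_mul_x hy0.le
    have h8 : Real.log 4 ≤ 2 := by
      have : Real.log 4 = 2 * Real.log 2 := by
        rw [show (4 : ℝ) = 2 ^ 2 by norm_num, Real.log_pow]
        norm_num
      rw [this]
      have := Real.log_two_lt_d9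
      linarith
    nlinarith
  refine le_trans ?_ h5
  have h9 : (1 - d / 2) * x ≤ Chebyshev.theta x - Chebyshev.theta y := by linarith
  have hq : 0 ≤ (x : ℝ) * Real.log x := by positivity
  have h10 : (1 - d / 4) * Real.log x * ((1 - d / 2) * x) ≤
      (1 - d / 4) * Real.log x * (Chebyshev.theta x - Chebyshev.theta y) := by
    apply mul_le_mul_of_nonneg_left h9
    apply mul_nonneg _ hlogx
    linarith
  have h11 : (1 - δ) * (x * Real.log x) ≤ (1 - d / 4) * Real.log x * ((1 - d / 2) * x) := by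
    have h12 : (1 - d / 4) * Real.log x * ((1 - d / 2) * x) =
        ((1 - d / 4) * (1 - d / 2)) * (x * Real.log x) := by ring
    rw [h12]
    apply mul_le_mul_of_nonneg_right _ hq
    nlinarith
  calc (1 - δ) * (x * Real.log x) ≤ _ := h11
    _ ≤ _ := h10
    _ = _ := by ring

end Pool.Agent.L0h56.HV
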