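import Pool.Agent.L0h54.HV.Stm

/-!
# Project HV: the classes which are not coprime to the modulus (module NCP; helper56)
-/

set_option autoImplicit false
set_option linter.all false

namespace Pool.Agent.L0h56.HV

open Finset
open ArithmeticFunction (vonMangoldt)
open Pool.Agent.H306R2.RZ (js)
open Pool.Agent.L0h41.MQ (AP)

theorem js_abs (k : ℤ) (n : ℕ) : |js k n| ≤ 1 := by
  unfold js
  rcases jacobiSym.trichotomy k n with h | h | h <;> rw [h] <;> norm_num

theorem natlog_le (N : ℕ) (hN : 1 ≤ N) : (Nat.log 2 N : ℝ) ≤ 2 * Real.log N := by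
  have h1 : (2 : ℝ) ^ (Nat.log 2 N) ≤ N := by
    exact_mod_cast Nat.pow_log_le_self 2 (by omega)
  have h2 := Real.log_le_log (by positivity) h1
  rw [Real.log_pow] at h2
  have h3 : (1 : ℝ) / 2 ≤ Real.log 2 := by
    have := Real.log_two_gt_d9
    linarith
  have h4 : (0 : ℝ) ≤ Nat.log 2 N := Nat.cast_nonneg _
  nlinarith

theorem omega_le (q : ℕ) (hq : 1 ≤ q) : q.primeFactors.card ≤ Nat.log 2 q := by
  apply Nat.le_log_of_pow_le (by norm_num)
  calc 2 ^ q.primeFactors.card = ∏ p ∈ q.primeFactors, 2 := by rw [Finset.prod_const]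
    _ ≤ ∏ p ∈ q.primeFactors, p :=
        Finset.prod_le_prod' fun p hp => (Nat.prime_of_mem_primeFactors hp).two_le
    _ ≤ q := Nat.le_of_dvd hq (Nat.prod_primeFactors_dvd q)

/-- the prime powers which are not coprime to `q` -/
theorem count_le (N q z : ℕ) (hN : 2 ≤ N) (hq : 1 ≤ q) (hz : z ≤ N) :
    ∑ n ∈ (Ioc 0 z).filter (fun n => ¬ Nat.Coprime n q), vonMangoldt n ≤
      ((q.primeFactors.card * Nat.log 2 N : ℕ) : ℝ) * Real.log N := by
  classical
  obtain ⟨T, hT⟩ : ∃ T, T = ((Ioc 0 z).filter (fun n => ¬ Nat.Coprime n q)).filter (fun n => IsPrimePow n) :=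
    ⟨_, rfl⟩
  have h1 : ∑ n ∈ (Ioc 0 z).filter (fun n => ¬ Nat.Coprime n q), vonMangoldt n =
      ∑ n ∈ T, vonMangoldt n := by
    rw [hT]
    symm
    refine Finset.sum_subset (Finset.filter_subset _ _) fun n hn hn' => ?_
    rw [ArithmeticFunction.vonMangoldt_eq_zero_iff]
    intro h
    exact hn' (mem_filter.mpr ⟨hn, h⟩)
  have hcard : T.card ≤ q.primeFactors.card * Nat.log 2 N := by
    have h2 : T ⊆ (q.primeFactors ×ˢ Icc 1 (Nat.log 2 N)).image (fun w => w.1 ^ w.2) := by
      intro n hn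
      rw [hT, mem_filter, mem_filter, mem_Ioc] at hn
      obtain ⟨⟨⟨h3, h4⟩, h5⟩, h6⟩ := hn
      obtain ⟨p, k, hp, hk, rfl⟩ := (isPrimePow_nat_iff _).mp h6
      rw [mem_image]
      refine ⟨(p, k), ?_, rfl⟩
      rw [mem_product, mem_Icc, Nat.mem_primeFactors]
      refine ⟨⟨hp, ?_, by omega⟩, hk, ?_⟩
      · by_contra h7
        exact h5 (Nat.Coprime.pow_left k ((Nat.Prime.coprime_iff_not_dvd hp).mpr h7))
      · apply Nat.le_log_of_pow_le (by norm_num)
        exact (Nat.pow_le_pow_left hp.two_le k).trans (h4.trans hz)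
    calc T.card ≤ _ := Finset.card_le_card h2
      _ ≤ _ := Finset.card_image_le
      _ = _ := by rw [Finset.card_product, Nat.card_Icc, Nat.add_sub_cancel]
  rw [h1]
  calc ∑ n ∈ T, vonMangoldt n ≤ ∑ n ∈ T, Real.log N := by
        refine Finset.sum_le_sum fun n hn => ?_
        rw [hT, mem_filter, mem_filter, mem_Ioc] at hn
        refine ArithmeticFunction.vonMangoldt_le_log.trans ?_
        apply Real.log_le_log
        · exact_mod_cast hn.1.1.1
        · exact_mod_cast hn.1.1.2.trans hz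
    _ = (T.card : ℝ) * Real.log N := by rw [Finset.sum_const, nsmul_eq_mul]
    _ ≤ _ := by
        apply mul_le_mul_of_nonneg_right _ (Real.log_natCast_nonneg N)
        exact_mod_cast hcard

theorem t_NCP : Pool.Agent.L0h54.HV.NCP := by
  refine ⟨16, by norm_num, ?_⟩
  intro N q z f hf hN hq hqN hz l
  classical
  have hlogN : 0 ≤ Real.log N := Real.log_natCast_nonneg N
  -- the sums of the von Mangoldt function
  have h1 : ∀ a : ℕ, (∑ n ∈ AP 0 z q a, vonMangoldt n * f n * js (n : ℤ) l) ^ 2 ≤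
      (∑ n ∈ AP 0 z q a, vonMangoldt n) ^ 2 := by
    intro a
    apply sq_le_sq'
    · have h2 : ∀ n : ℕ, -(vonMangoldt n) ≤ vonMangoldt n * f n * js (n : ℤ) l := by
        intro n
        have h3 : |vonMangoldt n * f n * js (n : ℤ) l| ≤ vonMangoldt n := by
          rw [abs_mul, abs_mul, abs_of_nonneg ArithmeticFunction.vonMangoldt_nonneg]
          calc vonMangoldt n * |f n| * |js (n : ℤ) l| ≤ vonMangoldt n * 1 * 1 := by
                gcongr
                · exact hf n
                · exact js_abs _ _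
            _ = vonMangoldt n := by ring
        exact (abs_le.mp h3).1
      rw [← Finset.sum_neg_distrib]
      exact Finset.sum_le_sum fun n _ => h2 n
    · refine Finset.sum_le_sum fun n _ => ?_
      have h3 : |vonMangoldt n * f n * js (n : ℤ) l| ≤ vonMangoldt n := by
        rw [abs_mul, abs_mul, abs_of_nonneg ArithmeticFunction.vonMangoldt_nonneg]
        calc vonMangoldt n * |f n| * |js (n : ℤ) l| ≤ vonMangoldt n * 1 * 1 := by
              gcongr
              · exact hf n
              · exact js_abs _ _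
          _ = vonMangoldt n := by ring
      exact (abs_le.mp h3).2
  have hnn : ∀ a : ℕ, 0 ≤ ∑ n ∈ AP 0 z q a, vonMangoldt n := fun a =>
    Finset.sum_nonneg fun n _ => ArithmeticFunction.vonMangoldt_nonneg
  have h2 : ∑ a ∈ (range q).filter (fun a => ¬ Nat.Coprime a q), ∑ n ∈ AP 0 z q a, vonMangoldt n =
      ∑ n ∈ (Ioc 0 z).filter (fun n => ¬ Nat.Coprime n q), vonMangoldt n := by
    have hg : ∀ n : ℕ, Nat.gcd (n % q) q = Nat.gcd n q := fun n =>
      (Nat.gcd_rec q n).symm.trans (Nat.gcd_comm q n)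
    have hmaps : ∀ n ∈ (Ioc 0 z).filter (fun n => ¬ Nat.Coprime n q),
        n % q ∈ (range q).filter (fun a => ¬ Nat.Coprime a q) := by
      intro n hn
      rw [mem_filter] at hn
      rw [mem_filter, mem_range]
      refine ⟨Nat.mod_lt _ hq, fun h6 => hn.2 ?_⟩
      show Nat.gcd n q = 1
      rw [← hg]
      exact h6
    have h := Finset.sum_fiberwise_of_maps_to hmaps (fun n => vonMangoldt n)
    rw [← h]
    refine Finset.sum_congr rfl fun a ha => ?_
    rw [mem_filter, mem_range] at ha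
    refine Finset.sum_congr ?_ fun _ _ => rfl
    ext n
    rw [Pool.Agent.L0h41.MQ.mem_AP, mem_filter, mem_filter, mem_Ioc]
    constructor
    · rintro ⟨h3, h4⟩
      have h5 : n % q = a := by
        have : n % q = a % q := h4
        rw [this, Nat.mod_eq_of_lt ha.1]
      refine ⟨⟨h3, fun h6 => ha.2 ?_⟩, h5⟩
      rw [← h5]
      show Nat.gcd (n % q) q = 1
      rw [hg]
      exact h6
    · rintro ⟨⟨h3, h4⟩, h5⟩
      refine ⟨h3, ?_⟩
      show n % q = a % q
      rw [h5, Nat.mod_eq_of_lt ha.1]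
  have h3 := count_le N q z hN hq hz
  have h4 : ((q.primeFactors.card * Nat.log 2 N : ℕ) : ℝ) * Real.log N ≤ 4 * Real.log N ^ 3 := by
    have e1 : (q.primeFactors.card : ℝ) ≤ 2 * Real.log N := by
      calc (q.primeFactors.card : ℝ) ≤ (Nat.log 2 q : ℝ) := by exact_mod_cast omega_le q hq
        _ ≤ (Nat.log 2 N : ℝ) := by exact_mod_cast Nat.log_mono_right hqN
        _ ≤ _ := natlog_le N (by omega)
    have e2 := natlog_le N (by omega)
    push_cast
    calc (q.primeFactors.card : ℝ) * (Nat.log 2 N : ℝ) * Real.log N ≤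
        (2 * Real.log N) * (2 * Real.log N) * Real.log N := by gcongr
      _ = _ := by ring
  calc ∑ a ∈ (range q).filter (fun a => ¬ Nat.Coprime a q),
      (∑ n ∈ AP 0 z q a, vonMangoldt n * f n * js (n : ℤ) l) ^ 2
      ≤ ∑ a ∈ (range q).filter (fun a => ¬ Nat.Coprime a q), (∑ n ∈ AP 0 z q a, vonMangoldt n) ^ 2 :=
        Finset.sum_le_sum fun a _ => h1 a
    _ ≤ (∑ a ∈ (range q).filter (fun a => ¬ Nat.Coprime a q), ∑ n ∈ AP 0 z q a, vonMangoldt n) ^ 2 :=
        Finset.sum_sq_le_sq_sum_of_nonneg fun a _ => hnn a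
    _ ≤ (4 * Real.log N ^ 3) ^ 2 := by
        apply pow_le_pow_left₀ (Finset.sum_nonneg fun a _ => hnn a)
        rw [h2]
        exact h3.trans h4
    _ = 16 * Real.log N ^ 6 := by ring

end Pool.Agent.L0h56.HV
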